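import Pool.Agent.L7h5.SP.Stm2

/-!
# Part CAUCHY: subextensions of prime index
-/

set_option autoImplicit false
set_option linter.all false

namespace Pool.Agent.L7h61.SP
open NumberField Module IntermediateField
open Pool.Agent.K4H33.SK (Qbar GQ Fixes IsZeta)
open Pool.Agent.K4H33.SK.Stmt (Sub Ideals nrm Cop cnt cntAll)
open Pool.Agent.L7h10.RQ (IsAbelian StarkReal0)
open Pool.Agent.L7h5.SP

theorem s_CAUCHY : S_CAUCHY := by
  intro F H ℓ hab hℓ hdvd
  have hfin := hab.fin
  have hFH := hab.le
  let E : IntermediateField F Qbar := IntermediateField.extendScalars hFH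
  have hEmem : ∀ x : Qbar, x ∈ E ↔ x ∈ H := fun x => Iff.rfl
  have hfinF : FiniteDimensional ℚ F :=
    Submodule.finiteDimensional_of_le (S₁ := Subalgebra.toSubmodule F.toSubalgebra)
      (S₂ := Subalgebra.toSubmodule H.toSubalgebra) hFH
  have hfinQE : FiniteDimensional ℚ E := hfin
  have hfinE : FiniteDimensional F E := FiniteDimensional.right ℚ F E
  have hnQ : Normal F Qbar := inferInstance
  have hnorm : Normal F E := by
    rw [IntermediateField.normal_iff_forall_map_le']
    intro σ x hx
    obtain ⟨y, hy, rfl⟩ := hx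
    have h1 := hab.normal (σ.restrictScalars ℚ) (fun z hz => σ.commutes ⟨z, hz⟩) y hy
    exact h1
  have hgal : IsGalois F E := ⟨⟩
  have hcard : Nat.card (E ≃ₐ[F] E) = finrank F E := IsGalois.card_aut_eq_finrank F E
  have hmul : finrank ℚ F * finrank F E = finrank ℚ E := Module.finrank_mul_finrank ℚ F E
  have hEH : finrank ℚ E = finrank ℚ H := rfl
  have hF0 : 0 < finrank ℚ F := Module.finrank_pos
  have hd : ℓ ∣ Nat.card (E ≃ₐ[F] E) := by
    rw [hcard]
    rw [← hEH, ← hmul, mul_comm ℓ] at hdvd
    exact Nat.dvd_of_mul_dvd_mul_left hF0 hdvd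
  have : Fact ℓ.Prime := ⟨hℓ⟩
  obtain ⟨g, hg⟩ := exists_prime_orderOf_dvd_card' ℓ hd
  let C : Subgroup (E ≃ₐ[F] E) := Subgroup.zpowers g
  have hC : Nat.card C = ℓ := by rw [Nat.card_zpowers, hg]
  let X : IntermediateField F E := IntermediateField.fixedField C
  have hX : finrank X E = ℓ := by
    rw [← hC]
    exact IntermediateField.finrank_fixedField_eq_card C
  have hX2 : finrank F X * finrank X E = finrank F E := Module.finrank_mul_finrank F X E
  let Y : IntermediateField F Qbar := IntermediateField.lift X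
  have hYX : finrank F Y = finrank F X := by
    exact (LinearEquiv.finrank_eq (IntermediateField.liftAlgEquiv X).toLinearEquiv).symm
  refine ⟨Y.restrictScalars ℚ, ?_, ?_, ?_⟩
  · intro x hx
    exact Y.algebraMap_mem ⟨x, hx⟩
  · intro x hx
    exact IntermediateField.lift_le X hx
  · have h1 : finrank ℚ (Y.restrictScalars ℚ) = finrank ℚ Y := rfl
    have h2 : finrank ℚ F * finrank F Y = finrank ℚ Y := Module.finrank_mul_finrank ℚ F Y
    rw [h1, ← h2, hYX, ← hEH, ← hmul, ← hX2, hX]
    ring

end Pool.Agent.L7h61.SP
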