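import Pool.Agent.L7h61.SP.DedaA
import Pool.Agent.N880.QF.Dz
import Pool.Agent.N880.QF.Char

/-!
# Part DEDA: the zeta function of a real quadratic field vanishes at `0`
-/

set_option autoImplicit false
set_option linter.all false

namespace Pool.Agent.L7h61.SP
open NumberField Module IntermediateField
open Pool.Agent.K4H33.SK (Qbar GQ Fixes IsZeta)
open Pool.Agent.K4H33.SK.Stmt (Sub Ideals nrm Cop cnt cntAll)
open Pool.Agent.L7h5.SP
open Pool.Agent.TH560.QT (Attached)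

lemma lfun_zero {k : ℕ} (hk : 0 < k) {N : ℕ} [NeZero N] (hN : 2 ≤ N) {χ : DirichletCharacter ℂ N}
    (h : Attached (k : ℤ) χ) : DirichletCharacter.LFunction χ 0 = 0 := by
  have h1 : χ.Even := attached_even hk h
  have h2 : Function.Even χ := h1.to_fun
  have h3 := ZMod.LFunction_apply_zero_of_even (Φ := (χ : ZMod N → ℂ)) h2
  have : Fact (1 < N) := ⟨by omega⟩
  have h4 : χ 0 = 0 := χ.map_nonunit not_isUnit_zero
  unfold DirichletCharacter.LFunction
  rw [h3, h4]
  simp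

lemma sqrt_real {F : Sub} (hreal : ∀ x ∈ F, ∀ w : Qbar →+* ℂ, (w x).im = 0) {m : ℤ} {a : F}
    (ha : a ^ 2 = (m : F)) (hm : ¬ IsSquare m) : 0 < m := by
  have hm0 : m ≠ 0 := by rintro rfl; exact hm (IsSquare.zero)
  refine lt_of_le_of_ne ?_ (Ne.symm hm0)
  obtain ⟨w⟩ : Nonempty (Qbar →+* ℂ) :=
    ⟨(IsAlgClosed.lift (R := ℚ) (S := Qbar) (M := ℂ)).toRingHom⟩
  have h1 := hreal (a : Qbar) a.2 w
  have h2 : (w (a : Qbar)) ^ 2 = (m : ℂ) := by
    have h3 := congrArg (fun t : F => w (t : Qbar)) ha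
    simpa using h3
  have h4 : w (a : Qbar) = (((w (a : Qbar)).re : ℝ) : ℂ) := by
    apply Complex.ext <;> simp [h1]
  rw [h4] at h2
  have h5 : ((w (a : Qbar)).re) ^ 2 = (m : ℝ) := by exact_mod_cast h2
  have h6 : (0 : ℝ) ≤ (m : ℝ) := by rw [← h5]; positivity
  exact_mod_cast h6

theorem s_DEDA : S_DEDA := by
  intro F _ hF hreal
  obtain ⟨m, a, ha, hm⟩ := Pool.Agent.N880.QF.quad_main F hF
  have hmpos := sqrt_real hreal ha hm
  obtain ⟨k, b, hkb, hk⟩ := Nat.sq_mul_squarefree m.natAbs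
  have hmk : m = (b : ℤ) ^ 2 * (k : ℤ) := by
    have h1 : (m.natAbs : ℤ) = m := Int.natAbs_of_nonneg hmpos.le
    rw [← h1, ← hkb]
    push_cast
    ring
  have hb0 : b ≠ 0 := by
    rintro rfl
    rw [hmk] at hmpos
    simp at hmpos
  have hk0 : 0 < k := Nat.pos_of_ne_zero hk.ne_zero
  have hksq : ¬ IsSquare (k : ℤ) := by
    rintro ⟨c, hc⟩
    apply hm
    refine ⟨(b : ℤ) * c, ?_⟩
    rw [hmk, hc]
    ring
  have hk1 : (k : ℤ) ≠ 1 := by
    intro h
    apply hksq
    rw [h]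
    exact IsSquare.one
  have hbF : (b : F) ≠ 0 := Nat.cast_ne_zero.2 hb0
  have hak : (a / (b : F)) ^ 2 = ((k : ℤ) : F) := by
    rw [div_pow, ha, hmk]
    push_cast
    field_simp
  obtain ⟨⟨N, hN, χ, hprim, hatt⟩, h2⟩ := Pool.Agent.N880.QF.char_main (k : ℤ)
    (Int.squarefree_natCast.2 hk) hk1
  obtain ⟨-, h3, -⟩ := h2 N hN χ hprim hatt
  rw [Int.natAbs_natCast] at h3
  have hk2 : 2 ≤ k := by
    rcases Nat.lt_or_ge k 2 with h | h
    · exfalso
      apply hk1
      have : k = 1 := by omega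
      rw [this]
      rfl
    · exact h
  have hN2 : 2 ≤ N := hk2.trans h3
  have hdz := Pool.Agent.N880.QF.dz_main F hF (k : ℤ) (a / (b : F)) hak hksq N hN χ hprim hatt
  refine ⟨fun s => riemannZeta s * DirichletCharacter.LFunction χ s, ⟨?_, ?_⟩, ?_⟩
  · intro s hs
    have hs1 : s ≠ 1 := hs
    exact ((differentiableAt_riemannZeta hs1).mul
      (DirichletCharacter.differentiableAt_LFunction χ s (Or.inl hs1))).differentiableWithinAt
  · intro s hs
    have h4 := (H332.PIT.aK_summable (K := F) hs).LSeriesHasSum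
    rw [← H332.PIT.dedekindZeta_eq, hdz s hs] at h4
    refine (LSeriesHasSum_congr s _ (fun {n} _ => ?_)).1 h4
    unfold Pool.Agent.H921R2.TatePole.aK cntAll
    push_cast
    rfl
  · simp only
    rw [lfun_zero hk0 hN2 hatt, mul_zero]

end Pool.Agent.L7h61.SP
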