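import Pool.Agent.L7h5.SP.Stm
import Pool.Agent.L7h10.RQ.Add

/-!
# Part DEDB: removing Euler factors of the zeta function of a number field
-/

set_option autoImplicit false
set_option linter.all false

namespace Pool.Agent.L7h61.SP
open NumberField Module IntermediateField
open Pool.Agent.K4H33.SK (Qbar GQ Fixes IsZeta hasSum_shift isCoprime_prime_iff)
open Pool.Agent.K4H33.SK.Stmt (Sub Ideals nrm Cop cnt cntAll)
open Pool.Agent.L7h5.SP

/-- The number of ideals of norm `n` prime to `𝔤`. -/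
noncomputable def ctA (F : Sub) [NumberField F] (𝔤 : Ideals F) (n : ℕ) : ℕ :=
  Nat.card {𝔟 : Ideals F // nrm F 𝔟 = n ∧ Cop F 𝔟 𝔤}

lemma ctA_modulus {F : Sub} [NumberField F] {𝔤 𝔤' : Ideals F}
    (h : ∀ 𝔟 : Ideals F, IsCoprime 𝔟 𝔤 ↔ IsCoprime 𝔟 𝔤') (n : ℕ) : ctA F 𝔤 n = ctA F 𝔤' n := by
  unfold ctA
  exact Nat.card_congr (Equiv.subtypeEquivRight fun 𝔟 => and_congr_right fun _ => h 𝔟)

lemma ctA_prime {F : Sub} [NumberField F] {𝔤 P : Ideals F} (hP : P.IsPrime) (hP0 : P ≠ ⊥)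
    (hPg : IsCoprime P 𝔤) (n : ℕ) :
    ctA F 𝔤 n = ctA F (𝔤 * P) n +
      (if Ideal.absNorm P ∣ n then ctA F 𝔤 (n / Ideal.absNorm P) else 0) := by
  classical
  have hfin : {𝔟 : Ideal (𝓞 F) | Ideal.absNorm 𝔟 = n}.Finite := Ideal.finite_setOfPred_absNorm_eq n
  set A : Set (Ideal (𝓞 F)) := {𝔟 | Ideal.absNorm 𝔟 = n ∧ IsCoprime 𝔟 𝔤} with hA
  set A1 : Set (Ideal (𝓞 F)) :=
    {𝔟 | Ideal.absNorm 𝔟 = n ∧ IsCoprime 𝔟 (𝔤 * P)} with hA1
  set A2 : Set (Ideal (𝓞 F)) := {𝔟 | 𝔟 ∈ A ∧ 𝔟 ≤ P} with hA2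
  have hAfin : A.Finite := hfin.subset fun 𝔟 h => h.1
  have h1 : A = A1 ∪ A2 := by
    ext 𝔟
    simp only [hA, hA1, hA2, Set.mem_ofPred_eq, Set.mem_union, IsCoprime.mul_right_iff,
      isCoprime_prime_iff hP hP0]
    tauto
  have h2 : Disjoint A1 A2 := by
    rw [Set.disjoint_left]
    intro 𝔟 h h'
    have h3 := (IsCoprime.mul_right_iff.1 h.2).2
    rw [isCoprime_prime_iff hP hP0] at h3
    exact h3 h'.2
  have hA1fin : A1.Finite := hAfin.subset (by rw [h1]; exact Set.subset_union_left)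
  have hA2fin : A2.Finite := hAfin.subset (by rw [h1]; exact Set.subset_union_right)
  have e0 : ctA F 𝔤 n = A.ncard := rfl
  have e1 : ctA F (𝔤 * P) n = A1.ncard := rfl
  rw [e0, e1, h1, Set.ncard_union_eq h2 hA1fin hA2fin]
  congr 1
  have hPn : Ideal.absNorm P ≠ 0 := by
    rw [Ne, Ideal.absNorm_eq_zero_iff]
    exact hP0
  split_ifs with hd
  · obtain ⟨m, hm⟩ := hd
    have hm' : n / Ideal.absNorm P = m := by
      rw [hm, Nat.mul_div_cancel_left _ (Nat.pos_of_ne_zero hPn)]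
    rw [hm']
    have e2 : ctA F 𝔤 m = {𝔠 : Ideal (𝓞 F) | Ideal.absNorm 𝔠 = m ∧ IsCoprime 𝔠 𝔤}.ncard := rfl
    rw [e2]
    symm
    refine Set.ncard_congr (fun 𝔠 _ => P * 𝔠) ?_ ?_ ?_
    · rintro 𝔠 ⟨h3, h4⟩
      refine ⟨⟨?_, ?_⟩, Ideal.mul_le_left⟩
      · rw [map_mul, h3, hm]
      · exact IsCoprime.mul_left hPg h4
    · intro 𝔠 𝔡 _ _ h
      exact mul_left_cancel₀ hP0 h
    · rintro 𝔟 ⟨⟨h3, h4⟩, h6⟩
      obtain ⟨𝔠, rfl⟩ := Ideal.dvd_iff_le.2 h6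
      rw [IsCoprime.mul_left_iff] at h4
      refine ⟨𝔠, ⟨?_, h4.2⟩, rfl⟩
      rw [map_mul, hm] at h3
      exact Nat.eq_of_mul_eq_mul_left (Nat.pos_of_ne_zero hPn) h3
  · rw [Set.ncard_eq_zero hA2fin, Set.eq_empty_iff_forall_notMem]
    rintro 𝔟 ⟨⟨h3, -⟩, h6⟩
    apply hd
    rw [← h3]
    exact map_dvd Ideal.absNorm (Ideal.dvd_iff_le.2 h6)

lemma dedb_aux {F : Sub} [NumberField F] (h0 : ∃ Z : ℂ → ℂ, IsZeta (cntAll F) Z ∧ Z 0 = 0)
    (𝔟 : Ideals F) : 𝔟 ≠ 0 →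
      ∃ Z : ℂ → ℂ, IsZeta (ctA F 𝔟) Z ∧ Z 0 = 0 ∧ (𝔟 ≠ ⊤ → deriv Z 0 = 0) := by
  induction 𝔟 using UniqueFactorizationMonoid.induction_on_prime with
  | h₁ => exact fun h => absurd rfl h
  | h₂ 𝔟 hu =>
    intro _
    rw [Ideal.isUnit_iff] at hu
    obtain ⟨Z, hZ, hZ0⟩ := h0
    have e : ctA F 𝔟 = cntAll F := by
      funext n
      unfold ctA cntAll
      refine Nat.card_congr (Equiv.subtypeEquivRight fun 𝔠 => ?_)
      rw [hu]
      refine and_iff_left ?_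
      rw [← Ideal.one_eq_top]
      exact isCoprime_one_right
    refine ⟨Z, ?_, hZ0, fun h => absurd hu h⟩
    rw [e]
    exact hZ
  | h₃ 𝔟 P h0' hp ih =>
    intro _
    have hP : P.IsPrime := Ideal.isPrime_of_prime hp
    have hP0 : P ≠ ⊥ := hp.ne_zero
    obtain ⟨Z, hZ, hZ0, hZd⟩ := ih h0'
    have e : P * 𝔟 = 𝔟 * P := mul_comm _ _
    rw [e]
    by_cases hPg : IsCoprime P 𝔟
    · have hPn : Ideal.absNorm P ≠ 0 := by
        rw [Ne, Ideal.absNorm_eq_zero_iff]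
        exact hP0
      have hPn' : (Ideal.absNorm P : ℂ) ≠ 0 := Nat.cast_ne_zero.2 hPn
      have hd : Differentiable ℂ (fun s : ℂ => (Ideal.absNorm P : ℂ) ^ (-s)) :=
        (differentiable_id.neg).const_cpow (Or.inl hPn')
      have hn : ({1}ᶜ : Set ℂ) ∈ nhds (0 : ℂ) := isOpen_compl_singleton.mem_nhds (by simp)
      have d1 := (hZ.1.differentiableAt hn).hasDerivAt
      have d3 := (hd 0).hasDerivAt
      have h5' := (d1.sub (d3.mul d1)).deriv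
      refine ⟨fun s => Z s - (Ideal.absNorm P : ℂ) ^ (-s) * Z s, ⟨?_, ?_⟩, ?_, ?_⟩
      · exact hZ.1.sub (hd.differentiableOn.mul hZ.1)
      · intro s hs
        have h3 := (hZ.2 s hs).sub (hasSum_shift hPn (hZ.2 s hs))
        refine (LSeriesHasSum_congr s _ (fun {n} _ => ?_)).1 h3
        have h7 := ctA_prime hP hP0 hPg n
        rw [Pi.sub_apply]
        have h8 : (ctA F 𝔟 n : ℂ) = (ctA F (𝔟 * P) n : ℂ) +
            ((if Ideal.absNorm P ∣ n then ctA F 𝔟 (n / Ideal.absNorm P) else 0 : ℕ) : ℂ) := by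
          rw [← Nat.cast_add]
          exact congrArg _ h7
        rw [h8]
        push_cast
        split_ifs <;> ring
      · simp only
        rw [hZ0]
        ring
      · intro _
        refine Eq.trans h5' ?_
        rw [hZ0, mul_zero, zero_add, neg_zero, Complex.cpow_zero, one_mul, sub_self]
    · have hne : 𝔟 ≠ ⊤ := by
        intro h
        apply hPg
        rw [h, ← Ideal.one_eq_top]
        exact isCoprime_one_right
      have e2 : ctA F (𝔟 * P) = ctA F 𝔟 := by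
        funext n
        refine ctA_modulus (fun 𝔠 => ?_) n
        rw [IsCoprime.mul_right_iff (x := 𝔠) (y := 𝔟) (z := P)]
        refine ⟨fun h => h.1, fun h => ⟨h, ?_⟩⟩
        rw [isCoprime_comm, isCoprime_prime_iff hP hP0, not_not] at hPg
        rw [Ideal.isCoprime_iff_exists] at h ⊢
        obtain ⟨i, hi, j, hj, hij⟩ := h
        exact ⟨i, hi, j, hPg hj, hij⟩
      rw [e2]
      exact ⟨Z, hZ, hZ0, fun _ => hZd hne⟩

theorem s_DEDB : S_DEDB := by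
  intro F _ h0 𝔣 art h1 h2 hfix
  obtain ⟨Z, hZ, hZ0, hZd⟩ := dedb_aux h0 𝔣 h1
  have e : cnt F F 𝔣 art 1 = ctA F 𝔣 := by
    funext n
    unfold ctA cnt
    refine Nat.card_congr (Equiv.subtypeEquivRight fun 𝔠 => ?_)
    refine and_congr_right fun _ => ?_
    refine and_iff_left_of_imp ?_
    intro h x hx
    exact hfix 𝔠 h x hx
  rw [e]
  exact ⟨Z, hZ, hZ0, hZd h2⟩

end Pool.Agent.L7h61.SP
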