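import Pool.Agent.L7h5.SP.Stm
import Pool.Agent.N880.QF.Stm

/-!
# Part DEDA, elementary lemmas
-/

set_option autoImplicit false
set_option linter.all false

namespace Pool.Agent.L7h61.SP
open Pool.Agent.TH560.QT (Attached)
open scoped NumberTheorySymbols

lemma jac_one {k : ℕ} (hk : 0 < k) : jacobiSym (k : ℤ) (4 * k - 1) = 1 := by
  have hodd : Odd (4 * k - 1) := ⟨2 * k - 1, by omega⟩
  have h1 : jacobiSym ((4 : ℤ) * (k : ℤ)) (4 * k - 1) = 1 := by
    rw [← jacobiSym.one_left (4 * k - 1)]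
    apply jacobiSym.mod_left'
    have e : ((4 : ℤ) * (k : ℤ)) = 1 + ((4 * k - 1 : ℕ) : ℤ) := by omega
    rw [e, Int.add_emod_right]
  have h2 : jacobiSym (4 : ℤ) (4 * k - 1) = 1 := by
    have e : (4 : ℤ) = 2 ^ 2 := by norm_num
    rw [e]
    apply jacobiSym.sq_one'
    have h3 : Nat.gcd 2 (4 * k - 1) = 1 := (Nat.coprime_two_left.2 hodd)
    exact h3
  rw [jacobiSym.mul_left, h2, one_mul] at h1
  exact h1

lemma attached_even {k : ℕ} (hk : 0 < k) {N : ℕ} [NeZero N] {χ : DirichletCharacter ℂ N}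
    (h : Attached (k : ℤ) χ) : χ (-1) = 1 := by
  obtain ⟨B, hB⟩ := h
  have hN0 : N ≠ 0 := NeZero.ne N
  have : NeZero (4 * k * N) := ⟨Nat.mul_ne_zero (by omega) hN0⟩
  obtain ⟨p, hpB, hp, hpq⟩ := Nat.forall_exists_prime_gt_and_eq_mod
    (q := 4 * k * N) (a := (-1 : ZMod (4 * k * N))) isUnit_one.neg B
  have h1 : (p : ZMod N) = -1 := by
    have := congrArg (ZMod.castHom (Dvd.intro_left (4 * k) rfl : N ∣ 4 * k * N) (ZMod N)) hpq
    rwa [map_natCast, map_neg, map_one] at this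
  have h2 : (p : ZMod (4 * k)) = -1 := by
    have := congrArg (ZMod.castHom (Dvd.intro N rfl : 4 * k ∣ 4 * k * N) (ZMod (4 * k))) hpq
    rwa [map_natCast, map_neg, map_one] at this
  have h3 : 4 * k ∣ p + 1 := by
    rw [← ZMod.natCast_eq_zero_iff]
    push_cast
    rw [h2]
    ring
  have h4 : p % (4 * k) = 4 * k - 1 := by
    obtain ⟨c, hc⟩ := h3
    have hc0 : c ≠ 0 := by rintro rfl; simp at hc
    obtain ⟨d, rfl⟩ := Nat.exists_eq_succ_of_ne_zero hc0
    have : p = (4 * k - 1) + 4 * k * d := by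
      rw [Nat.mul_succ] at hc
      omega
    rw [this, Nat.add_mul_mod_self_left, Nat.mod_eq_of_lt (by omega)]
  have hodd : Odd p := by
    obtain ⟨c, hc⟩ := h3
    rw [mul_assoc] at hc
    exact ⟨2 * (k * c) - 1, by omega⟩
  have h5 := hB p hp hpB.le
  rw [h1] at h5
  rw [h5, jacobiSym.mod_right _ hodd, Int.natAbs_natCast, h4, jac_one hk]
  simp

end Pool.Agent.L7h61.SP
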